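import Mathlib

/-!
A Lie algebra `L` with no non-trivial `1/2`-derivation (hence with no non-trivial transposed Poisson
structure) which has an indecomposable one-dimensional central extension with a non-trivial
transposed Poisson structure (hence with a non-trivial `1/2`-derivation).

`L = gl₂ ⋉ (U ⊕ U*)`, where `U` is the natural two-dimensional module, and the cocycle is the
pairing between `U` and `U*`; the extension is `gl₂` acting on the five-dimensional Heisenberg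
algebra.
-/

set_option autoImplicit false

namespace Pool.Agent.Results.MP_d69fce_al.CentralExtension

section Definitions

variable (L : Type*) [LieRing L] [LieAlgebra ℂ L]

/-- `φ` is a `1/2`-derivation of the complex Lie algebra `L`. -/
def IsHalfDerivation (φ : L →ₗ[ℂ] L) : Prop :=
  ∀ x y : L, φ ⁅x, y⁆ = (1 / 2 : ℂ) • (⁅φ x, y⁆ + ⁅x, φ y⁆)

/-- Every `1/2`-derivation of `L` is a scalar multiple of the identity. -/
def NoNontrivialHalfDerivation : Prop :=
  ∀ φ : L →ₗ[ℂ] L, IsHalfDerivation L φ → ∃ l : ℂ, ∀ x, φ x = l • x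

/-- The bilinear product `μ` is a transposed Poisson structure on `L`: it is commutative,
associative and satisfies `2 z · [x, y] = [z · x, y] + [x, z · y]`. -/
def IsTransposedPoisson (μ : L →ₗ[ℂ] L →ₗ[ℂ] L) : Prop :=
  (∀ x y : L, μ x y = μ y x) ∧ (∀ x y z : L, μ (μ x y) z = μ x (μ y z)) ∧
    ∀ x y z : L, (2 : ℂ) • μ z ⁅x, y⁆ = ⁅μ z x, y⁆ + ⁅x, μ z y⁆

/-- Every transposed Poisson structure on `L` is zero. -/
def NoNontrivialTransposedPoisson : Prop :=
  ∀ μ : L →ₗ[ℂ] L →ₗ[ℂ] L, IsTransposedPoisson L μ → ∀ x y : L, μ x y = 0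

/-- A two-cocycle on `L` with values in `ℂ`. -/
structure Cocycle where
  /-- the bilinear form -/
  form : L →ₗ[ℂ] L →ₗ[ℂ] ℂ
  alt : ∀ x : L, form x x = 0
  jacobi : ∀ x y z : L, form x ⁅y, z⁆ + form y ⁅z, x⁆ + form z ⁅x, y⁆ = 0

variable {L}

/-- The cocycle `ω` is a coboundary. -/
def Cocycle.IsCoboundary (ω : Cocycle L) : Prop :=
  ∃ f : L →ₗ[ℂ] ℂ, ∀ x y : L, ω.form x y = f ⁅x, y⁆

/-- The underlying vector space `L ⊕ ℂ c` of the central extension given by `ω`. -/
def Ext (_ω : Cocycle L) : Type _ := L × ℂ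

variable (ω : Cocycle L)

instance : AddCommGroup (Ext ω) := inferInstanceAs (AddCommGroup (L × ℂ))
instance : Module ℂ (Ext ω) := inferInstanceAs (Module ℂ (L × ℂ))

/-- The bracket `[x + a c, y + b c] = [x, y] + ω(x, y) c`. -/
instance : Bracket (Ext ω) (Ext ω) := ⟨fun x y => ((⁅x.1, y.1⁆, ω.form x.1 y.1) : L × ℂ)⟩

theorem Ext.bracket_def (x y : Ext ω) :
    ⁅x, y⁆ = ((⁅x.1, y.1⁆, ω.form x.1 y.1) : L × ℂ) := rfl

theorem Cocycle.skew (x y : L) : ω.form x y = - ω.form y x := by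
  have h := ω.alt (x + y)
  simp only [map_add, LinearMap.add_apply, ω.alt, zero_add, add_zero] at h
  linear_combination h

instance : LieRing (Ext ω) where
  add_lie x y z := by
    refine Prod.ext ?_ ?_
    · change ⁅x.1 + y.1, z.1⁆ = ⁅x.1, z.1⁆ + ⁅y.1, z.1⁆
      exact add_lie _ _ _
    · change ω.form (x.1 + y.1) z.1 = ω.form x.1 z.1 + ω.form y.1 z.1
      rw [map_add, LinearMap.add_apply]
  lie_add x y z := by
    refine Prod.ext ?_ ?_
    · change ⁅x.1, y.1 + z.1⁆ = ⁅x.1, y.1⁆ + ⁅x.1, z.1⁆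
      exact lie_add _ _ _
    · change ω.form x.1 (y.1 + z.1) = ω.form x.1 y.1 + ω.form x.1 z.1
      rw [map_add]
  lie_self x := by
    refine Prod.ext ?_ ?_
    · change ⁅x.1, x.1⁆ = 0
      exact lie_self _
    · change ω.form x.1 x.1 = 0
      exact ω.alt _
  leibniz_lie x y z := by
    refine Prod.ext ?_ ?_
    · change ⁅x.1, ⁅y.1, z.1⁆⁆ = ⁅⁅x.1, y.1⁆, z.1⁆ + ⁅y.1, ⁅x.1, z.1⁆⁆
      exact leibniz_lie _ _ _
    · change ω.form x.1 ⁅y.1, z.1⁆ = ω.form ⁅x.1, y.1⁆ z.1 + ω.form y.1 ⁅x.1, z.1⁆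
      have h1 := ω.jacobi x.1 y.1 z.1
      have h2 := ω.skew ⁅x.1, y.1⁆ z.1
      have h3 : ω.form y.1 ⁅z.1, x.1⁆ = - ω.form y.1 ⁅x.1, z.1⁆ := by
        rw [← lie_skew, map_neg]
      rw [h3] at h1
      linear_combination h1 - h2

instance : LieAlgebra ℂ (Ext ω) where
  lie_smul c x y := by
    refine Prod.ext ?_ ?_
    · change ⁅x.1, c • y.1⁆ = c • ⁅x.1, y.1⁆
      exact lie_smul _ _ _
    · change ω.form x.1 (c • y.1) = c • ω.form x.1 y.1
      rw [map_smul]

end Definitions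

/-! ### The Lie algebra `gl₂ ⋉ (U ⊕ U*)` -/

/-- The matrix with entries `a b c d`, the vector `(u, v)` and the covector `(p, q)`. -/
@[ext] structure A8 : Type where
  /-- entry of the matrix -/
  a : ℂ
  /-- entry of the matrix -/
  b : ℂ
  /-- entry of the matrix -/
  c : ℂ
  /-- entry of the matrix -/
  d : ℂ
  /-- entry of the vector -/
  u : ℂ
  /-- entry of the vector -/
  v : ℂ
  /-- entry of the covector -/
  p : ℂ
  /-- entry of the covector -/
  q : ℂ

namespace A8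

/-- Coordinates. -/
def eqv : A8 ≃ ℂ × ℂ × ℂ × ℂ × ℂ × ℂ × ℂ × ℂ where
  toFun x := (x.a, x.b, x.c, x.d, x.u, x.v, x.p, x.q)
  invFun y := ⟨y.1, y.2.1, y.2.2.1, y.2.2.2.1, y.2.2.2.2.1, y.2.2.2.2.2.1, y.2.2.2.2.2.2.1,
    y.2.2.2.2.2.2.2⟩
  left_inv _ := rfl
  right_inv _ := rfl

noncomputable instance : AddCommGroup A8 := eqv.addCommGroup
noncomputable instance : Module ℂ A8 := eqv.module ℂ
instance : FiniteDimensional ℂ A8 := Module.Finite.equiv (eqv.linearEquiv ℂ).symm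

section
variable (x y : A8) (r : ℂ)
@[simp] theorem add_a : (x + y).a = x.a + y.a := rfl
@[simp] theorem add_b : (x + y).b = x.b + y.b := rfl
@[simp] theorem add_c : (x + y).c = x.c + y.c := rfl
@[simp] theorem add_d : (x + y).d = x.d + y.d := rfl
@[simp] theorem add_u : (x + y).u = x.u + y.u := rfl
@[simp] theorem add_v : (x + y).v = x.v + y.v := rfl
@[simp] theorem add_p : (x + y).p = x.p + y.p := rfl
@[simp] theorem add_q : (x + y).q = x.q + y.q := rfl
@[simp] theorem smul_a : (r • x).a = r * x.a := rfl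
@[simp] theorem smul_b : (r • x).b = r * x.b := rfl
@[simp] theorem smul_c : (r • x).c = r * x.c := rfl
@[simp] theorem smul_d : (r • x).d = r * x.d := rfl
@[simp] theorem smul_u : (r • x).u = r * x.u := rfl
@[simp] theorem smul_v : (r • x).v = r * x.v := rfl
@[simp] theorem smul_p : (r • x).p = r * x.p := rfl
@[simp] theorem smul_q : (r • x).q = r * x.q := rfl
@[simp] theorem neg_a : (-x).a = -x.a := rfl
@[simp] theorem neg_b : (-x).b = -x.b := rfl
@[simp] theorem neg_c : (-x).c = -x.c := rfl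
@[simp] theorem neg_d : (-x).d = -x.d := rfl
@[simp] theorem neg_u : (-x).u = -x.u := rfl
@[simp] theorem neg_v : (-x).v = -x.v := rfl
@[simp] theorem neg_p : (-x).p = -x.p := rfl
@[simp] theorem neg_q : (-x).q = -x.q := rfl
@[simp] theorem zero_a : (0 : A8).a = 0 := rfl
@[simp] theorem zero_b : (0 : A8).b = 0 := rfl
@[simp] theorem zero_c : (0 : A8).c = 0 := rfl
@[simp] theorem zero_d : (0 : A8).d = 0 := rfl
@[simp] theorem zero_u : (0 : A8).u = 0 := rfl
@[simp] theorem zero_v : (0 : A8).v = 0 := rfl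
@[simp] theorem zero_p : (0 : A8).p = 0 := rfl
@[simp] theorem zero_q : (0 : A8).q = 0 := rfl
end

/-- The bracket: `[(M, u, ξ), (M', u', ξ')] = ([M, M'], M u' - M' u, ξ M' - ξ' M)`. -/
noncomputable instance : Bracket A8 A8 where
  bracket x y :=
    { a := x.b * y.c - y.b * x.c
      b := x.a * y.b + x.b * y.d - y.a * x.b - y.b * x.d
      c := x.c * y.a + x.d * y.c - y.c * x.a - y.d * x.c
      d := x.c * y.b - y.c * x.b
      u := x.a * y.u + x.b * y.v - y.a * x.u - y.b * x.v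
      v := x.c * y.u + x.d * y.v - y.c * x.u - y.d * x.v
      p := x.p * y.a + x.q * y.c - y.p * x.a - y.q * x.c
      q := x.p * y.b + x.q * y.d - y.p * x.b - y.q * x.d }

section
variable (x y : A8)
@[simp] theorem br_a : ⁅x, y⁆.a = x.b * y.c - y.b * x.c := rfl
@[simp] theorem br_b : ⁅x, y⁆.b = x.a * y.b + x.b * y.d - y.a * x.b - y.b * x.d := rfl
@[simp] theorem br_c : ⁅x, y⁆.c = x.c * y.a + x.d * y.c - y.c * x.a - y.d * x.c := rfl
@[simp] theorem br_d : ⁅x, y⁆.d = x.c * y.b - y.c * x.b := rfl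
@[simp] theorem br_u : ⁅x, y⁆.u = x.a * y.u + x.b * y.v - y.a * x.u - y.b * x.v := rfl
@[simp] theorem br_v : ⁅x, y⁆.v = x.c * y.u + x.d * y.v - y.c * x.u - y.d * x.v := rfl
@[simp] theorem br_p : ⁅x, y⁆.p = x.p * y.a + x.q * y.c - y.p * x.a - y.q * x.c := rfl
@[simp] theorem br_q : ⁅x, y⁆.q = x.p * y.b + x.q * y.d - y.p * x.b - y.q * x.d := rfl
end

noncomputable instance : LieRing A8 where
  add_lie x y z := by ext <;> simp <;> ring
  lie_add x y z := by ext <;> simp <;> ring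
  lie_self x := by ext <;> simp <;> ring
  leibniz_lie x y z := by ext <;> simp <;> ring

noncomputable instance : LieAlgebra ℂ A8 where
  lie_smul r x y := by ext <;> simp <;> ring

/-- The pairing cocycle `ω((M, u, ξ), (M', u', ξ')) = ξ u' - ξ' u`. -/
noncomputable def omega : Cocycle A8 where
  form := LinearMap.mk₂ ℂ (fun x y => x.p * y.u + x.q * y.v - y.p * x.u - y.q * x.v)
    (by intros; simp; ring) (by intros; simp; ring) (by intros; simp; ring) (by intros; simp; ring)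
  alt x := by
    simp only [LinearMap.mk₂_apply]
    ring
  jacobi x y z := by
    simp only [LinearMap.mk₂_apply, br_u, br_v, br_p, br_q]
    ring

theorem omega_apply (x y : A8) :
    omega.form x y = x.p * y.u + x.q * y.v - y.p * x.u - y.q * x.v := rfl

end A8


namespace A8

/-- basis element -/
def E11 : A8 := ⟨1, 0, 0, 0, 0, 0, 0, 0⟩
/-- basis element -/
def E12 : A8 := ⟨0, 1, 0, 0, 0, 0, 0, 0⟩
/-- basis element -/
def E21 : A8 := ⟨0, 0, 1, 0, 0, 0, 0, 0⟩
/-- basis element -/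
def E22 : A8 := ⟨0, 0, 0, 1, 0, 0, 0, 0⟩
/-- basis element -/
def U1 : A8 := ⟨0, 0, 0, 0, 1, 0, 0, 0⟩
/-- basis element -/
def U2 : A8 := ⟨0, 0, 0, 0, 0, 1, 0, 0⟩
/-- basis element -/
def P1 : A8 := ⟨0, 0, 0, 0, 0, 0, 1, 0⟩
/-- basis element -/
def P2 : A8 := ⟨0, 0, 0, 0, 0, 0, 0, 1⟩
/-- the identity matrix -/
def D : A8 := ⟨1, 0, 0, 1, 0, 0, 0, 0⟩

theorem decomp (x : A8) : x = x.a • E11 + x.b • E12 + x.c • E21 + x.d • E22 + x.u • U1 + x.v • U2 +
    x.p • P1 + x.q • P2 := by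
  ext <;> simp [E11, E12, E21, E22, U1, U2, P1, P2]

theorem bDE11 : ⁅D, E11⁆ = 0 := by ext <;> simp [D, E11]
theorem bDE12 : ⁅D, E12⁆ = 0 := by ext <;> simp [D, E12]
theorem bDE21 : ⁅D, E21⁆ = 0 := by ext <;> simp [D, E21]
theorem bDE22 : ⁅D, E22⁆ = 0 := by ext <;> simp [D, E22]
theorem bDU1 : ⁅D, U1⁆ = U1 := by ext <;> simp [D, U1]
theorem bDU2 : ⁅D, U2⁆ = U2 := by ext <;> simp [D, U2]
theorem bDP1 : ⁅D, P1⁆ = -P1 := by ext <;> simp [D, P1]
theorem bDP2 : ⁅D, P2⁆ = -P2 := by ext <;> simp [D, P2]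
theorem b11U1 : ⁅E11, U1⁆ = U1 := by ext <;> simp [E11, U1]
theorem b11U2 : ⁅E11, U2⁆ = 0 := by ext <;> simp [E11, U2]
theorem b12U1 : ⁅E12, U1⁆ = 0 := by ext <;> simp [E12, U1]
theorem b12U2 : ⁅E12, U2⁆ = U1 := by ext <;> simp [E12, U1, U2]
theorem b21U1 : ⁅E21, U1⁆ = U2 := by ext <;> simp [E21, U1, U2]
theorem b21U2 : ⁅E21, U2⁆ = 0 := by ext <;> simp [E21, U2]
theorem b22U1 : ⁅E22, U1⁆ = 0 := by ext <;> simp [E22, U1]
theorem b22U2 : ⁅E22, U2⁆ = U2 := by ext <;> simp [E22, U2]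
theorem b1112 : ⁅E11, E12⁆ = E12 := by ext <;> simp [E11, E12]
theorem b1121 : ⁅E11, E21⁆ = -E21 := by ext <;> simp [E11, E21]

theorem noHalf : NoNontrivialHalfDerivation A8 := by
  intro φ h
  have h1 := h D E11
  have h2 := h D E12
  have h3 := h D E21
  have h4 := h D E22
  have h5 := h D U1
  have h6 := h D U2
  have h7 := h D P1
  have h8 := h D P2
  have g1 := h E11 U1
  have g2 := h E11 U2
  have g3 := h E12 U1
  have g4 := h E12 U2
  have g5 := h E21 U1
  have g6 := h E21 U2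
  have g7 := h E22 U1
  have g8 := h E22 U2
  have k1 := h E11 E12
  have k2 := h E11 E21
  simp only [bDE11, bDE12, bDE21, bDE22, bDU1, bDU2, bDP1, bDP2, b11U1, b11U2, b12U1, b12U2, b21U1,
    b21U2, b22U1, b22U2, b1112, b1121, map_neg, map_zero] at h1 h2 h3 h4 h5 h6 h7 h8 g1 g2 g3 g4 g5 g6 g7 g8 k1 k2
  refine ⟨(φ D).a, ?_⟩
  suffices hs : φ E11 = (φ D).a • E11 ∧ φ E12 = (φ D).a • E12 ∧ φ E21 = (φ D).a • E21 ∧
      φ E22 = (φ D).a • E22 ∧ φ U1 = (φ D).a • U1 ∧ φ U2 = (φ D).a • U2 ∧ φ P1 = (φ D).a • P1 ∧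
      φ P2 = (φ D).a • P2 by
    obtain ⟨s1, s2, s3, s4, s5, s6, s7, s8⟩ := hs
    intro x
    rw [decomp x]
    simp only [map_add, map_smul, s1, s2, s3, s4, s5, s6, s7, s8, smul_add, smul_smul]
    simp only [mul_comm]
  generalize φ D = fD at *
  generalize φ E11 = f11 at *
  generalize φ E12 = f12 at *
  generalize φ E21 = f21 at *
  generalize φ E22 = f22 at *
  generalize φ U1 = fU1 at *
  generalize φ U2 = fU2 at *
  generalize φ P1 = fP1 at *
  generalize φ P2 = fP2 at *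
  clear h
  obtain ⟨d1, d2, d3, d4, d5, d6, d7, d8⟩ := fD
  obtain ⟨a1, a2, a3, a4, a5, a6, a7, a8⟩ := f11
  obtain ⟨b1, b2, b3, b4, b5, b6, b7, b8⟩ := f12
  obtain ⟨c1, c2, c3, c4, c5, c6, c7, c8⟩ := f21
  obtain ⟨e1, e2, e3, e4, e5, e6, e7, e8⟩ := f22
  obtain ⟨u1, u2, u3, u4, u5, u6, u7, u8⟩ := fU1
  obtain ⟨v1, v2, v3, v4, v5, v6, v7, v8⟩ := fU2
  obtain ⟨p1, p2, p3, p4, p5, p6, p7, p8⟩ := fP1
  obtain ⟨q1, q2, q3, q4, q5, q6, q7, q8⟩ := fP2
  simp [A8.ext_iff, D, E11, E12, E21, E22, U1, U2, P1, P2] at h1 h2 h3 h4 h5 h6 h7 h8 g1 g2 g3 g4 g5 g6 g7 g8 k1 k2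
  simp only [A8.ext_iff, smul_a, smul_b, smul_c, smul_d, smul_u, smul_v, smul_p, smul_q, E11, E12,
    E21, E22, U1, U2, P1, P2, mul_one, mul_zero]
  repeat' apply And.intro
  all_goals grind

end A8

theorem isHalfDerivation_of_transposedPoisson {L : Type*} [LieRing L] [LieAlgebra ℂ L]
    {μ : L →ₗ[ℂ] L →ₗ[ℂ] L} (h : IsTransposedPoisson L μ) (z : L) :
    IsHalfDerivation L (μ z) := by
  intro x y
  rw [← h.2.2 x y z, smul_smul]
  norm_num

namespace A8

theorem noTP : NoNontrivialTransposedPoisson A8 := by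
  intro μ h
  have hl : ∀ z, ∃ l : ℂ, ∀ x, μ z x = l • x := fun z =>
    noHalf (μ z) (isHalfDerivation_of_transposedPoisson h z)
  choose l hl using hl
  have h0 : ∀ x, l x = 0 := by
    intro x
    have h1 := h.1 x E11
    have h2 := h.1 x E12
    rw [hl, hl] at h1 h2
    have h3 := congrArg A8.a h1
    have h4 := congrArg A8.b h1
    have h5 := congrArg A8.b h2
    simp [E11, E12] at h3 h4 h5
    have h6 : l x * l x = 0 := by
      rw [h3]
      rcases h4 with h4 | h4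
      · rw [E11] at *
        rw [h4]
        ring
      · rw [← h3, h5, h4]
        ring
    exact mul_self_eq_zero.mp h6
  intro x y
  rw [hl, h0, zero_smul]

theorem not_isCoboundary : ¬ omega.IsCoboundary := by
  rintro ⟨f, hf⟩
  have h1 := hf P1 U1
  have h2 : ⁅P1, U1⁆ = 0 := by ext <;> simp [P1, U1]
  rw [h2, map_zero, omega_apply] at h1
  simp [P1, U1] at h1

/-- The trace functional on the extension. -/
noncomputable def tr : Ext omega →ₗ[ℂ] ℂ where
  toFun x := x.1.a + x.1.d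
  map_add' x y := by
    change (x.1 + y.1).a + (x.1 + y.1).d = _
    rw [add_a, add_d]
    ring
  map_smul' r x := by
    change (r • x.1).a + (r • x.1).d = _
    rw [smul_a, smul_d, RingHom.id_apply, smul_eq_mul]
    ring

/-- The central element. -/
noncomputable def cc : Ext omega := ((0, 1) : A8 × ℂ)

theorem tr_bracket (x y : Ext omega) : tr ⁅x, y⁆ = 0 := by
  change (⁅x.1, y.1⁆).a + (⁅x.1, y.1⁆).d = 0
  rw [br_a, br_d]
  ring

theorem tr_cc : tr cc = 0 := by
  change (0 : A8).a + (0 : A8).d = 0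
  simp

theorem cc_bracket (y : Ext omega) : ⁅cc, y⁆ = 0 := by
  rw [Ext.bracket_def]
  change ((⁅(0 : A8), y.1⁆, omega.form 0 y.1) : A8 × ℂ) = (0, 0)
  rw [zero_lie, map_zero, LinearMap.zero_apply]

theorem bracket_cc (y : Ext omega) : ⁅y, cc⁆ = 0 := by
  rw [← lie_skew, cc_bracket, neg_zero]

/-- The product `x · y = tr(x) tr(y) c`. -/
noncomputable def mu : Ext omega →ₗ[ℂ] Ext omega →ₗ[ℂ] Ext omega :=
  LinearMap.mk₂ ℂ (fun x y => (tr x * tr y) • cc)
    (by intro x y z; rw [map_add, add_mul, add_smul])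
    (by intro r x y; rw [map_smul, smul_eq_mul, mul_assoc, mul_smul])
    (by intro x y z; rw [map_add, mul_add, add_smul])
    (by intro r x y; rw [map_smul, smul_eq_mul, mul_left_comm, mul_smul])

theorem mu_apply (x y : Ext omega) : mu x y = (tr x * tr y) • cc := rfl

theorem mu_isTransposedPoisson : IsTransposedPoisson (Ext omega) mu := by
  refine ⟨fun x y => ?_, fun x y z => ?_, fun x y z => ?_⟩
  · rw [mu_apply, mu_apply, mul_comm]
  · rw [mu_apply, mu_apply, mu_apply, mu_apply, map_smul, map_smul, tr_cc]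
    simp
  · rw [mu_apply, mu_apply, mu_apply, tr_bracket, smul_lie, lie_smul, cc_bracket, bracket_cc]
    simp

/-- The element `E11` of the extension. -/
noncomputable def e : Ext omega := ((E11, 0) : A8 × ℂ)

theorem tr_e : tr e = 1 := by
  change E11.a + E11.d = 1
  simp [E11]

theorem mu_e_e : mu e e = cc := by
  rw [mu_apply, tr_e, mul_one, one_smul]

theorem cc_ne_smul_e (r : ℂ) : cc ≠ r • e := by
  intro h
  have h1 : (cc : Ext omega).2 = (r • e : Ext omega).2 := by rw [h]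
  have h2 : (r • e : Ext omega).2 = r * 0 := rfl
  rw [h2, mul_zero] at h1
  exact one_ne_zero h1

end A8

/-- **A Lie algebra with no non-trivial transposed Poisson structure and no non-trivial
`1/2`-derivation which has an indecomposable one-dimensional central extension with both a
non-trivial transposed Poisson structure and a non-trivial `1/2`-derivation.** -/
theorem result : ∃ (L : Type) (_ : LieRing L) (_ : LieAlgebra ℂ L) (ω : Cocycle L),
    FiniteDimensional ℂ L ∧ NoNontrivialTransposedPoisson L ∧ NoNontrivialHalfDerivation L ∧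
    ¬ ω.IsCoboundary ∧ ¬ NoNontrivialTransposedPoisson (Ext ω) ∧
    ¬ NoNontrivialHalfDerivation (Ext ω) := by
  refine ⟨A8, inferInstance, inferInstance, A8.omega, inferInstance, A8.noTP, A8.noHalf,
    A8.not_isCoboundary, fun h => ?_, fun h => ?_⟩
  · have h1 := h A8.mu A8.mu_isTransposedPoisson A8.e A8.e
    rw [A8.mu_e_e] at h1
    exact A8.cc_ne_smul_e 0 (by rw [h1, zero_smul])
  · obtain ⟨l, hl⟩ := h (A8.mu A8.e)
      (isHalfDerivation_of_transposedPoisson A8.mu_isTransposedPoisson A8.e)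
    have h1 := hl A8.e
    rw [A8.mu_e_e] at h1
    exact A8.cc_ne_smul_e l h1

end Pool.Agent.Results.MP_d69fce_al.CentralExtension
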